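import Pool.Agent.Y924.EL.Stm

/-!
# Records of computations are deterministic; growth of towers
-/

set_option autoImplicit false

namespace Pool.Agent.Y151.EL

open Pool.Agent.Y924.EL

theorem just_tr {W : Set ℕ} (hW : Closed W) {c x y : ℕ} (h : tr c x y ∈ W) :
    ∃ g c1 c2 : ℕ, c = Nat.pair g (Nat.pair c1 c2) ∧
    ((g = 0 ∧ y = 0) ∨ (g = 1 ∧ y = x + 1) ∨ (g = 2 ∧ ∃ v, x = Nat.pair y v) ∨
      (g = 3 ∧ ∃ v, x = Nat.pair v y) ∨
      (g = 4 ∧ ∃ a b, tr c1 x a ∈ W ∧ tr c2 x b ∈ W ∧ y = Nat.pair a b) ∨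
      (g = 5 ∧ ∃ a, tr c2 x a ∈ W ∧ tr c1 a y ∈ W) ∨
      (g = 6 ∧ ∃ z n, x = Nat.pair z n ∧ ((n = 0 ∧ tr c1 z y ∈ W) ∨
        ∃ k i, n = k + 1 ∧ tr c (Nat.pair z k) i ∈ W ∧
          tr c2 (Nat.pair z (Nat.pair k i)) y ∈ W))) := by
  obtain ⟨c', x', y', g, c1, c2, ht, hc, hr⟩ := hW _ h
  unfold tr at ht
  rw [Nat.pair_eq_pair, Nat.pair_eq_pair] at ht
  obtain ⟨rfl, rfl, rfl⟩ := ht
  exact ⟨g, c1, c2, hc, hr⟩

theorem t_UNIQ : S_UNIQ := by
  intro W W' c x y y' hW hW'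
  induction c using Nat.strong_induction_on generalizing x y y' with
  | _ c ihc =>
  induction x using Nat.strong_induction_on generalizing y y' with
  | _ x ihx =>
  intro h h'
  obtain ⟨g, c1, c2, hc, hcase⟩ := just_tr hW h
  obtain ⟨g', c1', c2', hc', hcase'⟩ := just_tr hW' h'
  have hg : g = g' ∧ c1 = c1' ∧ c2 = c2' := by
    rw [hc, Nat.pair_eq_pair, Nat.pair_eq_pair] at hc'
    exact hc'
  obtain ⟨rfl, rfl, rfl⟩ := hg
  have hlt : 1 ≤ g → c1 < c ∧ c2 < c := by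
    intro h1
    have h2 := Nat.add_le_pair g (Nat.pair c1 c2)
    have h3 := Nat.left_le_pair c1 c2
    have h4 := Nat.right_le_pair c1 c2
    rw [← hc] at h2
    omega
  rcases hcase with A | A | A | A | A | A | A <;>
    rcases hcase' with B | B | B | B | B | B | B <;>
    first
      | (exfalso; have e1 := A.1; have e2 := B.1; omega)
      | skip
  · exact A.2.trans B.2.symm
  · exact A.2.trans B.2.symm
  · obtain ⟨-, v, hv⟩ := A
    obtain ⟨-, w, hw⟩ := B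
    rw [hv, Nat.pair_eq_pair] at hw
    exact hw.1
  · obtain ⟨-, v, hv⟩ := A
    obtain ⟨-, w, hw⟩ := B
    rw [hv, Nat.pair_eq_pair] at hw
    exact hw.2
  · obtain ⟨hg, a, b, ha, hb, rfl⟩ := A
    obtain ⟨-, a', b', ha', hb', rfl⟩ := B
    obtain ⟨l1, l2⟩ := hlt (by omega)
    rw [ihc c1 l1 x a a' ha ha', ihc c2 l2 x b b' hb hb']
  · obtain ⟨hg, a, ha, hb⟩ := A
    obtain ⟨-, a', ha', hb'⟩ := B
    obtain ⟨l1, l2⟩ := hlt (by omega)
    have e1 := ihc c2 l2 x a a' ha ha'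
    subst e1
    exact ihc c1 l1 a y y' hb hb'
  · obtain ⟨hg, z, n, hz, hA⟩ := A
    obtain ⟨-, z', n', hz', hB⟩ := B
    obtain ⟨l1, l2⟩ := hlt (by omega)
    rw [hz, Nat.pair_eq_pair] at hz'
    obtain ⟨rfl, rfl⟩ := hz'
    rcases hA with ⟨hn, h1⟩ | ⟨k, i, hn, h1, h2⟩
    · rcases hB with ⟨-, h1'⟩ | ⟨k', i', hn', -, -⟩
      · exact ihc c1 l1 z y y' h1 h1'
      · omega
    · rcases hB with ⟨hn', -⟩ | ⟨k', i', hn', h1', h2'⟩
      · omega
      · have hk : k = k' := by omega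
        subst hk
        have hlt' : Nat.pair z k < x := by
          rw [hz, hn]
          exact Nat.pair_lt_pair_right z (Nat.lt_succ_self k)
        have hi := ihx (Nat.pair z k) hlt' i i' h1 h1'
        subst hi
        exact ihc c2 l2 _ y y' h2 h2'

theorem tower_add (k j x : ℕ) : tower (k + j) x = tower k (tower j x) := by
  induction k with
  | zero => rw [Nat.zero_add]; rfl
  | succ k ih =>
    rw [Nat.succ_add]
    show 2 ^ tower (k + j) x = 2 ^ tower k (tower j x)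
    rw [ih]

theorem tower_mono {x y : ℕ} (h : x ≤ y) (k : ℕ) : tower k x ≤ tower k y := by
  induction k with
  | zero => exact h
  | succ k ih => exact Nat.pow_le_pow_right (by norm_num) ih

theorem tower_ge (m : ℕ) : 2 * (m + 1) ≤ tower m 2 := by
  induction m with
  | zero => exact le_rfl
  | succ m ih =>
    show 2 * (m + 1 + 1) ≤ 2 ^ tower m 2
    have h1 : 2 ^ (2 * (m + 1)) ≤ 2 ^ tower m 2 := Nat.pow_le_pow_right (by norm_num) ih
    have h2 : 2 * (m + 1) + 1 ≤ 2 ^ (2 * (m + 1)) := Nat.lt_two_pow_self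
    have h3 : Even (2 ^ (2 * (m + 1))) := by
      rw [Nat.even_pow]
      exact ⟨even_two, by omega⟩
    obtain ⟨r, hr⟩ := h3
    omega

theorem t_TOW : S_TOW := by
  intro c k
  refine ⟨2 * k + 2, ?_⟩
  have hn : 2 * k + 2 ≤ Nat.pair c (2 * k + 2) := Nat.right_le_pair _ _
  obtain ⟨n, hn'⟩ : ∃ n, n = Nat.pair c (2 * k + 2) := ⟨_, rfl⟩
  rw [← hn'] at hn ⊢
  refine ⟨by omega, ?_, ?_⟩
  · obtain ⟨m, rfl⟩ : ∃ m, n = k + m := ⟨n - k, by omega⟩
    conv_rhs => rw [tower_add]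
    apply tower_mono
    have := tower_ge m
    omega
  · have := tower_ge n
    omega

end Pool.Agent.Y151.EL
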